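import Pool.Agent.R449.MB.Mlc
import Pool.Agent.Y736.RN.M

set_option autoImplicit false

/-! # Moments of the superattracting parameters at almost every parameter -/

namespace Pool.Agent.R449.MB

open Complex Filter Topology Set Metric MeasureTheory
open N62a1eb23
open Pool.Agent.R240.Sparse Pool.Agent.R240.Res

variable {d : ℕ}

/-- few centres and bounded moments, for every period of renormalization, all exponents less than
twice the period -/
def Nice2 (d : ℕ) (c : ℂ) : Prop :=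
  ∀ p : ℕ, 1 ≤ p → (p = 1 ∨ RenC d c p) → ∀ κ : ℝ, 0 < κ → κ < 2 * p →
    FewAt d κ c ∧ MomAt d κ c

theorem null_nice2 (hd : 2 ≤ d) : volume {c | c ∈ multibrotSet d ∧ ¬ Nice2 d c} = 0 := by
  have h1 : ∀ (p : ℕ) (q : ℚ), 1 ≤ p → 0 < (q : ℝ) → (q : ℝ) < 2 * p →
      volume {c | RenC d c p ∧ ¬ (FewAt d q c ∧ MomAt d q c)} = 0 := by
    intro p q hp hq0 hq
    have hp0 : (0 : ℝ) < p := by exact_mod_cast hp
    apply Pool.Agent.Y736.RN.volume_zero_of_dimH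
    have h3 : {c | RenC d c p ∧ ¬ (FewAt d q c ∧ MomAt d q c)} ⊆
        {c | RenC d c p ∧ ¬ FewAt d q c} ∪ {c | RenC d c p ∧ ¬ MomAt d q c} := by
      rintro c ⟨h4, h5⟩
      by_cases h6 : FewAt d q c
      · exact Or.inr ⟨h4, fun h7 => h5 ⟨h6, h7⟩⟩
      · exact Or.inl ⟨h4, h6⟩
    refine (dimH_mono h3).trans_lt ?_
    rw [dimH_union]
    refine (max_le (dim_few hd hp hq0) (dim_mom hd hp hq0)).trans_lt ?_
    have h2 : (2 : ENNReal) = ENNReal.ofReal 2 := by simp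
    rw [h2, ENNReal.ofReal_lt_ofReal_iff (by norm_num), div_lt_iff₀ hp0]
    exact hq
  have hsub : {c | c ∈ multibrotSet d ∧ ¬ Nice2 d c} ⊆
      ⋃ (p : ℕ) (q : ℚ), {c | (1 ≤ p ∧ 0 < (q : ℝ) ∧ (q : ℝ) < 2 * p) ∧
        RenC d c p ∧ ¬ (FewAt d q c ∧ MomAt d q c)} := by
    rintro c ⟨hcM, hc⟩
    unfold Nice2 at hc
    push Not at hc
    obtain ⟨p, hp, hr, κ, hκ0, hκ, h2⟩ := hc
    obtain ⟨q, hq1, hq2⟩ := exists_rat_btwn hκ
    have hr' : RenC d c p := by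
      rcases hr with rfl | hr
      · exact renC_one hd hcM
      · exact hr
    refine mem_iUnion.2 ⟨p, mem_iUnion.2 ⟨q, ⟨hp, hκ0.trans hq1, hq2⟩, hr', ?_⟩⟩
    rintro ⟨h3, h4⟩
    exact h2 (h3.mono hq1.le) (mom_of hd h4.1 hκ0 hq1 h3)
  refine measure_mono_null hsub ?_
  rw [measure_iUnion_null_iff]
  intro p
  rw [measure_iUnion_null_iff]
  intro q
  by_cases h : 1 ≤ p ∧ 0 < (q : ℝ) ∧ (q : ℝ) < 2 * p
  · refine measure_mono_null ?_ (h1 p q h.1 h.2.1 h.2.2)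
    rintro c ⟨-, hc⟩
    exact hc
  · have : {c | (1 ≤ p ∧ 0 < (q : ℝ) ∧ (q : ℝ) < 2 * p) ∧
        RenC d c p ∧ ¬ (FewAt d q c ∧ MomAt d q c)} = ∅ := by
      ext c
      simp only [mem_ofPred_eq, mem_empty_iff_false, iff_false]
      rintro ⟨h2, -⟩
      exact h h2
    rw [this, measure_empty]

end Pool.Agent.R449.MB
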