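import Mathlib

set_option autoImplicit false

/-! # Negative moments of the distances from a point to a finite set -/

namespace Pool.Agent.R449.MB

open Finset

/-- the moments from the counts in small discs -/
theorem moment (Z : Finset ℂ) (c : ℂ) (hc : c ∉ Z) {s κ r0 A : ℝ} (hs : 0 < s) (hsκ : s < κ)
    (hr0 : 0 < r0) (hr1 : r0 ≤ 1) (hA : 0 ≤ A)
    (hcount : ∀ r : ℝ, 0 < r → r ≤ r0 →
      ((Z.filter (fun a => ‖a - c‖ < r)).card : ℝ) ≤ A * r ^ κ) :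
    ∑ a ∈ Z, ‖a - c‖ ^ (-s) ≤ Z.card * r0 ^ (-s) + A * (2 ^ s / (1 - (1 / 2) ^ (κ - s))) := by
  have hθ0 : (0:ℝ) < (1 / 2) ^ (κ - s) := by positivity
  have hθ1 : (1 / 2 : ℝ) ^ (κ - s) < 1 :=
    Real.rpow_lt_one (by norm_num) (by norm_num) (by linarith)
  obtain ⟨θ, hθ⟩ : ∃ θ : ℝ, θ = (1 / 2 : ℝ) ^ (κ - s) := ⟨_, rfl⟩
  rw [← hθ] at hθ0 hθ1 ⊢
  -- a lower bound of the distances
  obtain ⟨K, hK⟩ : ∃ K : ℕ, ∀ a ∈ Z, r0 * (1 / 2) ^ (K + 1) ≤ ‖a - c‖ := by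
    have h1 : ∀ a ∈ Z, ∃ k : ℕ, ∀ K, k ≤ K → r0 * (1 / 2) ^ (K + 1) ≤ ‖a - c‖ := by
      intro a ha
      have h2 : 0 < ‖a - c‖ := norm_pos_iff.2 (sub_ne_zero.2 fun h => hc (h ▸ ha))
      obtain ⟨k, hk⟩ := exists_pow_lt_of_lt_one h2 (by norm_num : (1 / 2 : ℝ) < 1)
      refine ⟨k, fun K hK => ?_⟩
      have h3 : (1 / 2 : ℝ) ^ (K + 1) ≤ (1 / 2) ^ k :=
        pow_le_pow_of_le_one (by norm_num) (by norm_num) (by omega)
      have h4 : (0:ℝ) < (1 / 2) ^ (K + 1) := by positivity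
      nlinarith
    choose! k hk using h1
    exact ⟨Z.sup k, fun a ha => hk a ha _ (Finset.le_sup ha)⟩
  -- the pointwise bound
  have hpt : ∀ a ∈ Z, ‖a - c‖ ^ (-s) ≤ r0 ^ (-s) +
      ∑ k ∈ range (K + 1), if ‖a - c‖ < r0 * (1 / 2) ^ k then (r0 * (1 / 2) ^ (k + 1)) ^ (-s) else 0 := by
    intro a ha
    have hnn : ∀ k ∈ range (K + 1), 0 ≤
        (if ‖a - c‖ < r0 * (1 / 2) ^ k then (r0 * (1 / 2) ^ (k + 1)) ^ (-s) else 0 : ℝ) := by
      intro k _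
      split_ifs
      · positivity
      · exact le_rfl
    by_cases hbig : r0 ≤ ‖a - c‖
    · have h1 : ‖a - c‖ ^ (-s) ≤ r0 ^ (-s) :=
        Real.rpow_le_rpow_of_nonpos hr0 hbig (by linarith)
      have h2 := Finset.sum_nonneg hnn
      linarith
    · push Not at hbig
      -- the least k with r0 / 2 ^ (k + 1) ≤ ‖a - c‖
      have hex : ∃ k : ℕ, r0 * (1 / 2) ^ (k + 1) ≤ ‖a - c‖ := ⟨K, hK a ha⟩
      classical
      obtain ⟨k, hk1, hk2⟩ : ∃ k : ℕ, r0 * (1 / 2) ^ (k + 1) ≤ ‖a - c‖ ∧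
          ∀ m < k, ¬ r0 * (1 / 2) ^ (m + 1) ≤ ‖a - c‖ :=
        ⟨Nat.find hex, Nat.find_spec hex, fun m hm => Nat.find_min hex hm⟩
      have hkK : k ≤ K := by
        by_contra hcon
        push Not at hcon
        exact hk2 K hcon (hK a ha)
      have hlt : ‖a - c‖ < r0 * (1 / 2) ^ k := by
        rcases Nat.eq_zero_or_pos k with h0 | h0
        · rw [h0, pow_zero, mul_one]
          exact hbig
        · have h3 := hk2 (k - 1) (by omega)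
          rw [Nat.sub_add_cancel h0] at h3
          exact not_le.1 h3
      have h4 : ‖a - c‖ ^ (-s) ≤ (r0 * (1 / 2) ^ (k + 1)) ^ (-s) :=
        Real.rpow_le_rpow_of_nonpos (by positivity) hk1 (by linarith)
      have h5 := Finset.single_le_sum hnn (mem_range.2 (Nat.lt_succ_of_le hkK))
      rw [if_pos hlt] at h5
      have h6 : 0 ≤ r0 ^ (-s) := by positivity
      linarith
  refine (Finset.sum_le_sum hpt).trans ?_
  rw [Finset.sum_add_distrib, Finset.sum_const, nsmul_eq_mul]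
  have hswap : ∑ a ∈ Z, ∑ k ∈ range (K + 1),
      (if ‖a - c‖ < r0 * (1 / 2) ^ k then (r0 * (1 / 2) ^ (k + 1)) ^ (-s) else 0 : ℝ) =
      ∑ k ∈ range (K + 1), ((Z.filter (fun a => ‖a - c‖ < r0 * (1 / 2) ^ k)).card : ℝ) *
        (r0 * (1 / 2) ^ (k + 1)) ^ (-s) := by
    rw [Finset.sum_comm]
    refine Finset.sum_congr rfl fun k _ => ?_
    rw [← Finset.sum_filter, Finset.sum_const, nsmul_eq_mul]
  rw [hswap]
  have hterm : ∀ k ∈ range (K + 1),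
      ((Z.filter (fun a => ‖a - c‖ < r0 * (1 / 2) ^ k)).card : ℝ) *
        (r0 * (1 / 2) ^ (k + 1)) ^ (-s) ≤ A * 2 ^ s * θ ^ k := by
    intro k _
    have hp : (0:ℝ) < (1 / 2) ^ k := by positivity
    have hp1 : (1 / 2 : ℝ) ^ k ≤ 1 := pow_le_one₀ (by norm_num) (by norm_num)
    have h1 := hcount (r0 * (1 / 2) ^ k) (by positivity) (by nlinarith)
    have h2 : (r0 * (1 / 2) ^ (k + 1)) ^ (-s) = 2 ^ s * (r0 * (1 / 2) ^ k) ^ (-s) := by
      have h3 : r0 * (1 / 2 : ℝ) ^ (k + 1) = (1 / 2) * (r0 * (1 / 2) ^ k) := by ring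
      rw [h3, Real.mul_rpow (by norm_num) (by positivity)]
      congr 1
      rw [one_div, Real.inv_rpow (by norm_num), Real.rpow_neg (by norm_num), inv_inv]
    rw [h2]
    calc ((Z.filter (fun a => ‖a - c‖ < r0 * (1 / 2) ^ k)).card : ℝ) *
          (2 ^ s * (r0 * (1 / 2) ^ k) ^ (-s)) ≤
          (A * (r0 * (1 / 2) ^ k) ^ κ) * (2 ^ s * (r0 * (1 / 2) ^ k) ^ (-s)) := by gcongr
      _ = A * 2 ^ s * ((r0 * (1 / 2) ^ k) ^ κ * (r0 * (1 / 2) ^ k) ^ (-s)) := by ring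
      _ = A * 2 ^ s * (r0 * (1 / 2) ^ k) ^ (κ - s) := by
          rw [← Real.rpow_add (by positivity), sub_eq_add_neg]
      _ ≤ A * 2 ^ s * ((1 / 2) ^ k) ^ (κ - s) := by
          have h4 : (r0 * (1 / 2) ^ k) ^ (κ - s) ≤ ((1 / 2 : ℝ) ^ k) ^ (κ - s) :=
            Real.rpow_le_rpow (by positivity) (by nlinarith) (by linarith)
          gcongr
      _ = A * 2 ^ s * θ ^ k := by
          rw [hθ, ← Real.rpow_natCast ((1 / 2 : ℝ) ^ (κ - s)) k, ← Real.rpow_natCast (1 / 2 : ℝ) k,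
            ← Real.rpow_mul (by norm_num), ← Real.rpow_mul (by norm_num), mul_comm (k : ℝ)]
  have hsum : ∑ k ∈ range (K + 1), θ ^ k ≤ 1 / (1 - θ) := by
    have h1 : (1 - θ) * ∑ k ∈ range (K + 1), θ ^ k = 1 - θ ^ (K + 1) := mul_neg_geom_sum θ (K + 1)
    have h2 : 0 < 1 - θ := by linarith
    rw [le_div_iff₀ h2, mul_comm, h1]
    have : 0 ≤ θ ^ (K + 1) := by positivity
    linarith
  have hfin := Finset.sum_le_sum hterm
  rw [← Finset.mul_sum] at hfin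
  have h9 : A * 2 ^ s * ∑ k ∈ range (K + 1), θ ^ k ≤ A * 2 ^ s * (1 / (1 - θ)) := by gcongr
  have h10 : A * (2 ^ s / (1 - θ)) = A * 2 ^ s * (1 / (1 - θ)) := by ring
  rw [h10]
  linarith

end Pool.Agent.R449.MB
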