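import Pool.Agent.R240.Sparse
import Pool.Agent.R240.Res4
import Pool.Agent.Y736.RN.L
import Pool.Agent.R449.MB.Mom

set_option autoImplicit false

/-! # Few superattracting parameters near renormalizable ones -/

namespace Pool.Agent.R449.MB

open Complex Filter Topology Set Metric MeasureTheory Pool.Agent.H713R2
open N62a1eb23
open Pool.Agent.H712R2 (P fc)
open Pool.Agent.Y736.HD (Ang)
open Pool.Agent.Y736.RN
open Pool.Agent.R240.Sparse Pool.Agent.R240.Res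
open Pool.Agent.R240.LL (ZZ mem_ZZ card_ZZ KL KL_pos)

variable {d : ℕ} {ψ : ℂ → ℂ}

/-- for all small `r` and all `n` there are at most `d ^ n r ^ κ` superattracting parameters of
period dividing `n` at distance less than `r` -/
def FewAt (d : ℕ) (κ : ℝ) (c : ℂ) : Prop :=
  ∀ᶠ r : ℝ in 𝓝[>] 0, ∀ n : ℕ, 1 ≤ n → ((cen d n c r).ncard : ℝ) ≤ (d:ℝ) ^ n * r ^ κ

/-- the exterior map -/
theorem exists_ext {d : ℕ} (hd : 2 ≤ d) : ∃ β : ℂ → ℂ, IsExteriorMap (multibrotSet d) β := by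
  obtain ⟨β, hβ⟩ := exists_beta (d := d) hd
  exact ⟨_, exteriorMap_of_beta hβ⟩

theorem lin_exp {b A : ℝ} (hb : 0 < b) :
    ∃ N : ℕ, ∀ n : ℕ, N ≤ n → A * n ≤ 1 / 2 * Real.exp (b * n) := by
  obtain ⟨N, hN⟩ := exists_nat_ge (4 * A / b ^ 2)
  refine ⟨N, fun n hn => ?_⟩
  have h1 : (N : ℝ) ≤ n := by exact_mod_cast hn
  have h2 : 4 * A ≤ n * b ^ 2 := by
    have h3 := hN.trans h1
    rwa [div_le_iff₀ (by positivity)] at h3
  have hn0 : (0:ℝ) ≤ n := Nat.cast_nonneg n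
  have h4 := Real.quadratic_le_exp_of_nonneg (x := b * n) (by positivity)
  have h5 : 4 * A * n ≤ n * b ^ 2 * n := mul_le_mul_of_nonneg_right h2 hn0
  have h6 : (b * n) ^ 2 = n * b ^ 2 * n := by ring
  have h7 : 0 ≤ b * n := by positivity
  nlinarith

theorem few_of (hd : 2 ≤ d) (hψ : IsExteriorMap (multibrotSet d) ψ) {c : ℂ}
    (hc : c ∈ multibrotSet d) (hne : ∀ m, 1 ≤ m → P d m c ≠ 0) {κ κ' X : ℝ} (hκ0 : 0 < κ)
    (hκ : κ < κ') (hXκ : X * κ < Real.log d) (hB : ¬ Big ψ κ' c)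
    (hF : ¬ Near d X c) : FewAt d κ c := by
  obtain ⟨κ₁, h1, h2⟩ := exists_between hκ
  have hd0 : (0:ℝ) < d := by exact_mod_cast (by omega : 0 < d)
  have hd2 : (2:ℝ) ≤ d := by exact_mod_cast hd
  have hlog : 0 < Real.log d := Real.log_pos (by linarith)
  have hvol : ∀ᶠ r : ℝ in 𝓝[>] 0, (volume (Ang ψ c r)).toReal < r ^ κ' := by
    by_contra hcon
    rw [not_eventually] at hcon
    exact hB (big_of_vol hd hψ hc (by linarith) (hcon.mono fun r hr => not_lt.1 hr))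
  have hsp := sparse_of hd hψ hc h2 hvol
  unfold Near at hF
  rw [not_frequently] at hF
  obtain ⟨n0, hn0⟩ := eventually_atTop.1 hF
  obtain ⟨n1, hn1⟩ := lin_exp (b := Real.log d - X * κ) (A := KL * Real.log d) (by linarith)
  obtain ⟨N, hN⟩ : ∃ N, N = max n0 n1 := ⟨_, rfl⟩
  have hsmall : ∀ᶠ r : ℝ in 𝓝[>] 0, ∀ n ∈ Finset.range N, 1 ≤ n → ∀ a ∈ ball c r, P d n a ≠ 0 := by
    rw [Filter.eventually_all_finset]
    intro n _
    by_cases hn : 1 ≤ n
    · have hcont : Continuous (P d n) := (Pool.Agent.H713R2.differentiable_P d n).continuous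
      have h3 : {a | P d n a ≠ 0} ∈ 𝓝 c := (isOpen_ne.preimage hcont).mem_nhds (hne n hn)
      obtain ⟨ε, hε, hb⟩ := Metric.mem_nhds_iff.1 h3
      filter_upwards [Ioo_mem_nhdsGT hε] with r hr _ a ha
      exact hb (ball_subset_ball hr.2.le ha)
    · exact Eventually.of_forall fun r h => absurd h hn
  unfold FewAt
  filter_upwards [hsp, hsmall, Ioo_mem_nhdsGT one_pos] with r h3 h4 hr n hn
  have hr0 : 0 < r := hr.1
  have hpos : 0 ≤ (d:ℝ) ^ n * r ^ κ := by positivity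
  by_cases hnN : n < N
  · have h5 : cen d n c r = ∅ := by
      ext a
      simp only [mem_empty_iff_false, iff_false]
      rintro ⟨ha, hP⟩
      exact h4 n (Finset.mem_range.2 hnN) hn a ha hP
    rw [h5, ncard_empty, Nat.cast_zero]
    exact hpos
  · push Not at hnN
    by_cases hrn : r ≤ Real.exp (-(X * n))
    · have h5 : cen d n c r = ∅ := by
        ext a
        simp only [mem_empty_iff_false, iff_false]
        rintro ⟨ha, hP⟩
        rw [mem_ball, dist_eq_norm] at ha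
        exact hn0 n ((le_max_left n0 n1).trans (hN ▸ hnN)) ⟨a, hP, ha.le.trans hrn⟩
      rw [h5, ncard_empty, Nat.cast_zero]
      exact hpos
    · push Not at hrn
      refine (h3 n hn).trans ?_
      have hb1 : KL * n * Real.log d ≤ 1 / 2 * ((d:ℝ) ^ n * r ^ κ) := by
        have h5 := hn1 n ((le_max_right n0 n1).trans (hN ▸ hnN))
        have h6 : Real.exp (-(X * n) * κ) ≤ r ^ κ := by
          rw [Real.exp_mul]
          exact Real.rpow_le_rpow (Real.exp_pos _).le hrn.le hκ0.le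
        have h7 : Real.exp ((Real.log d - X * κ) * n) = (d:ℝ) ^ n * Real.exp (-(X * n) * κ) := by
          rw [show (Real.log d - X * κ) * n = n * Real.log d + -(X * n) * κ by ring, Real.exp_add,
            Real.exp_nat_mul, Real.exp_log hd0]
        rw [h7] at h5
        have h8 : (d:ℝ) ^ n * Real.exp (-(X * n) * κ) ≤ (d:ℝ) ^ n * r ^ κ := by gcongr
        calc KL * n * Real.log d = KL * Real.log d * n := by ring
          _ ≤ 1 / 2 * ((d:ℝ) ^ n * Real.exp (-(X * n) * κ)) := h5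
          _ ≤ 1 / 2 * ((d:ℝ) ^ n * r ^ κ) := by gcongr
      have hb2 : (d:ℝ) ^ (n - 1) * r ^ κ₁ ≤ 1 / 2 * ((d:ℝ) ^ n * r ^ κ) := by
        have h5 : r ^ κ₁ ≤ r ^ κ := Real.rpow_le_rpow_of_exponent_ge hr0 hr.2.le h1.le
        have h6 : (d:ℝ) ^ n = d ^ (n - 1) * d := by
          rw [← pow_succ, Nat.sub_add_cancel hn]
        have h7 : 0 < (d:ℝ) ^ (n - 1) := by positivity
        have h8 : 0 < r ^ κ := by positivity
        calc (d:ℝ) ^ (n - 1) * r ^ κ₁ ≤ (d:ℝ) ^ (n - 1) * r ^ κ := by gcongr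
          _ = (d:ℝ) ^ (n - 1) * r ^ κ * 1 := (mul_one _).symm
          _ ≤ (d:ℝ) ^ (n - 1) * r ^ κ * (1 / 2 * d) := by
              have : (1:ℝ) ≤ 1 / 2 * d := by linarith
              gcongr
          _ = 1 / 2 * ((d:ℝ) ^ n * r ^ κ) := by rw [h6]; ring
      linarith

/-- bounded negative moments of the distances -/
def MomAt (d : ℕ) (s : ℝ) (c : ℂ) : Prop :=
  (∀ m, 1 ≤ m → P d m c ≠ 0) ∧
  ∃ C : ℝ, ∀ N : ℕ, ∑ a ∈ ZZ d N, ‖a - c‖ ^ (-s) ≤ C * (d:ℝ) ^ (N + 1)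

theorem mom_of (hd : 2 ≤ d) {c : ℂ} (hne : ∀ m, 1 ≤ m → P d m c ≠ 0) {s κ : ℝ} (hs : 0 < s)
    (hκ : s < κ) (h : FewAt d κ c) : MomAt d s c := by
  have hd0 : (0:ℝ) < d := by exact_mod_cast (by omega : 0 < d)
  have hd1 : (1:ℝ) ≤ d := by exact_mod_cast (by omega : 1 ≤ d)
  unfold FewAt at h
  obtain ⟨ε, hε, hb⟩ := (mem_nhdsGT_iff_exists_Ioo_subset' (show (0:ℝ) < 1 from one_pos)).1 h
  obtain ⟨r0, hr0⟩ : ∃ r0 : ℝ, r0 = min (ε / 2) 1 := ⟨_, rfl⟩
  have hε0 : 0 < ε := hε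
  have hr00 : 0 < r0 := by rw [hr0]; positivity
  have hr01 : r0 ≤ 1 := by rw [hr0]; exact min_le_right _ _
  have hr0ε : r0 < ε := by
    rw [hr0]
    exact (min_le_left _ _).trans_lt (by linarith)
  refine ⟨hne, r0 ^ (-s) + 2 ^ s / (1 - (1 / 2) ^ (κ - s)), fun N => ?_⟩
  have hcZ : c ∉ ZZ d N := fun hm => hne (N + 1) (by omega) ((mem_ZZ hd).1 hm)
  have h1 := moment (ZZ d N) c hcZ hs hκ hr00 hr01 (A := (d:ℝ) ^ (N + 1)) (by positivity) (by
    intro r hr1 hr2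
    have h2 := hb ⟨hr1, hr2.trans_lt hr0ε⟩ (N + 1) (by omega)
    have h3 : cen d (N + 1) c r =
        (((ZZ d N).filter (fun a => ‖a - c‖ < r) : Finset ℂ) : Set ℂ) := by
      ext a
      rw [Finset.mem_coe, Finset.mem_filter, mem_ZZ hd]
      show (a ∈ ball c r ∧ P d (N + 1) a = 0) ↔ _
      rw [mem_ball, dist_eq_norm, and_comm]
    rw [h3, Set.ncard_coe_finset] at h2
    exact h2)
  refine h1.trans ?_
  have h4 : ((ZZ d N).card : ℝ) ≤ (d:ℝ) ^ (N + 1) := by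
    have h5 : ((ZZ d N).card : ℝ) ≤ (d:ℝ) ^ N := by exact_mod_cast card_ZZ hd N
    exact h5.trans (pow_le_pow_right₀ hd1 (by omega))
  have h6 : 0 ≤ r0 ^ (-s) := by positivity
  calc ((ZZ d N).card : ℝ) * r0 ^ (-s) + (d:ℝ) ^ (N + 1) * (2 ^ s / (1 - (1 / 2) ^ (κ - s)))
      ≤ (d:ℝ) ^ (N + 1) * r0 ^ (-s) + (d:ℝ) ^ (N + 1) * (2 ^ s / (1 - (1 / 2) ^ (κ - s))) := by
        gcongr
    _ = _ := by ring

/-- the superattracting parameters have dimension zero -/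
theorem dim_centres (hd : 2 ≤ d) : dimH (⋃ N : ℕ, {x : ℂ | P d (N + 1) x = 0}) = 0 := by
  apply Set.Countable.dimH_zero
  refine countable_iUnion fun N => ?_
  have : {x : ℂ | P d (N + 1) x = 0} = ((ZZ d N : Finset ℂ) : Set ℂ) := by
    ext x
    rw [Finset.mem_coe, mem_ZZ hd]
    rfl
  rw [this]
  exact (ZZ d N).countable_toSet

theorem lim_dim {A : Set ℂ} {p : ℕ} {κ : ℝ}
    (h : ∀ t : ℝ, 0 < t → t < 1 → dimH A ≤ ENNReal.ofReal (κ / (p * t))) (hp : 1 ≤ p) :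
    dimH A ≤ ENNReal.ofReal (κ / p) := by
  have hpR : (1 : ℝ) ≤ p := by exact_mod_cast hp
  have h1 : Tendsto (fun t : ℝ => ENNReal.ofReal (κ / (p * t))) (𝓝[<] 1)
      (𝓝 (ENNReal.ofReal (κ / (p * 1)))) := by
    apply ENNReal.tendsto_ofReal
    refine (tendsto_const_nhds.div (tendsto_id.const_mul _) ?_).mono_left nhdsWithin_le_nhds
    positivity
  rw [mul_one] at h1
  apply ge_of_tendsto h1
  have h2 : ∀ᶠ t : ℝ in 𝓝[<] 1, 0 < t := nhdsWithin_le_nhds (lt_mem_nhds one_pos)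
  filter_upwards [h2, self_mem_nhdsWithin] with t ht0 ht1
  exact h t ht0 ht1

theorem dim_few (hd : 2 ≤ d) {p : ℕ} (hp : 1 ≤ p) {κ : ℝ} (hκ : 0 < κ) :
    dimH {c | RenC d c p ∧ ¬ FewAt d κ c} ≤ ENNReal.ofReal (κ / p) := by
  obtain ⟨β, hβ⟩ := exists_ext (d := d) hd
  have hdR : (1 : ℝ) < d := by exact_mod_cast (by omega : 1 < d)
  have hlogd : 0 < Real.log d := Real.log_pos hdR
  have hpR : (0 : ℝ) < p := by exact_mod_cast (by omega : 0 < p)
  refine lim_dim (fun t ht0 ht1 => ?_) hp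
  have hX : 0 < t * Real.log d / κ := by positivity
  have hsub : {c | RenC d c p ∧ ¬ FewAt d κ c} ⊆
      ({c | Ren d c p ∧ Big β (κ / t) c} ∪ {c | RenC d c p ∧ Near d (t * Real.log d / κ) c}) ∪
        ⋃ N : ℕ, {x : ℂ | P d (N + 1) x = 0} := by
    rintro c ⟨h1, h2⟩
    by_contra hcon
    simp only [mem_union, mem_ofPred_eq, mem_iUnion, not_or, not_and, not_exists] at hcon
    obtain ⟨⟨h3, h4⟩, h5⟩ := hcon
    refine h2 (few_of hd hβ (ren_mem hp h1.ren) (fun m hm => ?_) hκ (κ' := κ / t)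
      (X := t * Real.log d / κ) ?_ ?_ (h3 h1.ren) (h4 h1))
    · obtain ⟨N, rfl⟩ : ∃ N, m = N + 1 := ⟨m - 1, by omega⟩
      exact h5 N
    · rw [lt_div_iff₀ ht0]
      nlinarith
    · rw [div_mul_cancel₀ _ hκ.ne']
      nlinarith
  refine (dimH_mono hsub).trans ?_
  rw [dimH_union, dimH_union, dim_centres hd]
  refine max_le (max_le ?_ ?_) bot_le
  · refine (dim_big hd hp hβ (by positivity)).trans (le_of_eq ?_)
    congr 1
    field_simp
  · refine (dim_near' hd hp hX).trans (le_of_eq ?_)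
    congr 1
    field_simp

theorem dim_mom (hd : 2 ≤ d) {p : ℕ} (hp : 1 ≤ p) {s : ℝ} (hs : 0 < s) :
    dimH {c | RenC d c p ∧ ¬ MomAt d s c} ≤ ENNReal.ofReal (s / p) := by
  have hpR : (0 : ℝ) < p := by exact_mod_cast (by omega : 0 < p)
  refine lim_dim (fun t ht0 ht1 => ?_) hp
  have hsub : {c | RenC d c p ∧ ¬ MomAt d s c} ⊆
      {c | RenC d c p ∧ ¬ FewAt d (s / t) c} ∪ ⋃ N : ℕ, {x : ℂ | P d (N + 1) x = 0} := by
    rintro c ⟨h1, h2⟩
    by_contra hcon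
    simp only [mem_union, mem_ofPred_eq, mem_iUnion, not_or, not_and, not_exists, not_not] at hcon
    obtain ⟨h3, h5⟩ := hcon
    refine h2 (mom_of hd (fun m hm => ?_) hs (κ := s / t) ?_ (h3 h1))
    · obtain ⟨N, rfl⟩ : ∃ N, m = N + 1 := ⟨m - 1, by omega⟩
      exact h5 N
    · rw [lt_div_iff₀ ht0]
      nlinarith
  refine (dimH_mono hsub).trans ?_
  rw [dimH_union, dim_centres hd]
  refine max_le ((dim_few hd hp (by positivity)).trans (le_of_eq ?_)) bot_le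
  congr 1
  field_simp

theorem dim_inf_few (hd : 2 ≤ d) :
    dimH {c | {p : ℕ | RenC d c p}.Infinite ∧
      ∃ κ : ℝ, 0 < κ ∧ (¬ FewAt d κ c ∨ ¬ MomAt d κ c)} = 0 := by
  obtain ⟨β, hβ⟩ := exists_ext (d := d) hd
  have hdR : (1 : ℝ) < d := by exact_mod_cast (by omega : 1 < d)
  have hlogd : 0 < Real.log d := Real.log_pos hdR
  have hsub : {c | {p : ℕ | RenC d c p}.Infinite ∧
      ∃ κ : ℝ, 0 < κ ∧ (¬ FewAt d κ c ∨ ¬ MomAt d κ c)} ⊆
      ({c | {p : ℕ | Ren d c p}.Infinite ∧ ∃ κ : ℝ, 0 < κ ∧ Big β κ c} ∪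
        {c | {p : ℕ | RenC d c p}.Infinite ∧ ∃ X : ℝ, 0 < X ∧ Near d X c}) ∪
        ⋃ N : ℕ, {x : ℂ | P d (N + 1) x = 0} := by
    rintro c ⟨h1, κ, hκ, h2⟩
    by_contra hcon
    simp only [mem_union, mem_ofPred_eq, mem_iUnion, not_or, not_and, not_exists] at hcon
    obtain ⟨⟨h3, h4⟩, h5⟩ := hcon
    have h6 : {p : ℕ | Ren d c p}.Infinite := h1.mono fun p hp => RenC.ren hp
    obtain ⟨p, hp, hp0⟩ := h1.exists_gt 0
    have hne : ∀ m, 1 ≤ m → P d m c ≠ 0 := by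
      intro m hm
      obtain ⟨N, rfl⟩ : ∃ N, m = N + 1 := ⟨m - 1, by omega⟩
      exact h5 N
    have h7 : ∀ κ' : ℝ, 0 < κ' → FewAt d κ' c := by
      intro κ' hκ'
      refine few_of hd hβ (ren_mem hp0 (RenC.ren hp)) hne hκ' (κ' := κ' + 1)
        (X := Real.log d / (2 * κ')) (by linarith) ?_ (h3 h6 _ (by linarith))
        (h4 h1 _ (by positivity))
      rw [div_mul_eq_mul_div, div_lt_iff₀ (by positivity)]
      nlinarith [mul_pos hlogd hκ']
    rcases h2 with h2 | h2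
    · exact h2 (h7 κ hκ)
    · exact h2 (mom_of hd hne hκ (κ := κ + 1) (by linarith) (h7 _ (by linarith)))
  apply le_antisymm _ bot_le
  refine (dimH_mono hsub).trans ?_
  rw [dimH_union, dimH_union, dim_centres hd, dim_near_inf' hd,
    dim_inf hd hβ (A := {c | {p : ℕ | Ren d c p}.Infinite ∧ ∃ κ : ℝ, 0 < κ ∧ Big β κ c})
      (fun c hc => hc)]
  simp

/-- under a priori bounds -/
theorem sparse_weak (hd : 2 ≤ d) {c : ℂ} (hc : c ∈ multibrotSet d)
    (h : ∀ ε : ℝ, 0 < ε → {p : ℕ | ∃ (U : Set ℂ) (r : ℝ), 0 < r ∧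
      (∀ n : ℕ, ball (P d (n * p) c) r ⊆ U) ∧
      ∀ z ∈ U, ∀ z' ∈ U, ‖(fc d c)^[p] z - (fc d c)^[p] z'‖ ≤ Real.exp (ε * p) * r}.Infinite)
    {κ : ℝ} (hκ : 0 < κ) :
    ∀ᶠ r : ℝ in 𝓝[>] 0, ∀ n : ℕ, 1 ≤ n →
      ((cen d n c r).ncard : ℝ) ≤ (d:ℝ) ^ (n - 1) * r ^ κ + KL * n * Real.log d := by
  obtain ⟨β, hβ⟩ := exists_ext (d := d) hd
  have h1 := not_big_of_weak hd hβ hc h
  have hvol : ∀ᶠ r : ℝ in 𝓝[>] 0, (volume (Ang β c r)).toReal < r ^ (κ + 1) := by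
    by_contra hcon
    rw [not_eventually] at hcon
    exact h1 (κ + 1) (by linarith)
      (big_of_vol hd hβ hc (by linarith) (hcon.mono fun r hr => not_lt.1 hr))
  exact sparse_of hd hβ hc (by linarith) hvol

end Pool.Agent.R449.MB
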