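import Pool.Agent.R449.MB.Few
import Pool.Agent.R240.Slim

set_option autoImplicit false

/-! # Moments of the superattracting parameters and local connectivity -/

namespace Pool.Agent.R449.MB

open Complex Filter Topology Set Metric MeasureTheory
open N62a1eb23
open Pool.Agent.H712R2 (P fc)
open Pool.Agent.R240.Sparse Pool.Agent.R240.Res
open Pool.Agent.R240.Loc
open Pool.Agent.R240.Slim (circles_null cik_interior)

variable {d : ℕ}

theorem FewAt.mono {c : ℂ} {κ κ' : ℝ} (h : FewAt d κ' c) (hκ : κ ≤ κ') : FewAt d κ c := by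
  unfold FewAt at h ⊢
  filter_upwards [h, Ioo_mem_nhdsGT one_pos] with r h1 hr n hn
  refine (h1 n hn).trans ?_
  have h2 : r ^ κ' ≤ r ^ κ := Real.rpow_le_rpow_of_exponent_ge hr.1 hr.2.le hκ
  gcongr

/-- few centres and bounded moments, for every period of renormalization -/
def Nice (d : ℕ) (c : ℂ) : Prop :=
  ∀ p : ℕ, 1 ≤ p → (p = 1 ∨ RenC d c p) → ∀ κ : ℝ, 0 < κ → κ < p → FewAt d κ c ∧ MomAt d κ c

/-- almost every circle misses the other boundary points -/
theorem ae_nice (hd : 2 ≤ d) (p₀ : ℂ) :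
    ∀ᵐ s : ℝ, ∀ c ∈ frontier (multibrotSet d), dist c p₀ = s → Nice d c := by
  have h1 : ∀ (p : ℕ) (q : ℚ), 1 ≤ p → 0 < (q : ℝ) → (q : ℝ) < p →
      ∀ᵐ s : ℝ, ∀ c : ℂ, dist c p₀ = s →
        ¬ (RenC d c p ∧ ¬ (FewAt d q c ∧ MomAt d q c)) := by
    intro p q hp hq0 hq
    have hp0 : (0 : ℝ) < p := by exact_mod_cast hp
    have h2 : dimH {c | RenC d c p ∧ ¬ (FewAt d q c ∧ MomAt d q c)} < 1 := by
      have h3 : {c | RenC d c p ∧ ¬ (FewAt d q c ∧ MomAt d q c)} ⊆
          {c | RenC d c p ∧ ¬ FewAt d q c} ∪ {c | RenC d c p ∧ ¬ MomAt d q c} := by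
        rintro c ⟨h4, h5⟩
        by_cases h6 : FewAt d q c
        · exact Or.inr ⟨h4, fun h7 => h5 ⟨h6, h7⟩⟩
        · exact Or.inl ⟨h4, h6⟩
      refine (dimH_mono h3).trans_lt ?_
      rw [dimH_union]
      refine (max_le (dim_few hd hp hq0) (dim_mom hd hp hq0)).trans_lt ?_
      rw [← ENNReal.ofReal_one, ENNReal.ofReal_lt_ofReal_iff one_pos, div_lt_one hp0]
      exact hq
    have h3 := circles_null h2 p₀
    have h4 : ∀ᵐ s : ℝ, s ∉ (fun z => dist z p₀) ''
        {c | RenC d c p ∧ ¬ (FewAt d q c ∧ MomAt d q c)} :=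
      measure_eq_zero_iff_ae_notMem.1 h3
    filter_upwards [h4] with s hs c hc hcon
    exact hs ⟨c, hcon, hc⟩
  have h2 : ∀ᵐ s : ℝ, ∀ (p : ℕ) (q : ℚ), 1 ≤ p → 0 < (q : ℝ) → (q : ℝ) < p →
      ∀ c : ℂ, dist c p₀ = s → ¬ (RenC d c p ∧ ¬ (FewAt d q c ∧ MomAt d q c)) := by
    rw [ae_all_iff]; intro p
    rw [ae_all_iff]; intro q
    by_cases hp : 1 ≤ p
    · by_cases hq0 : 0 < (q : ℝ)
      · by_cases hq : (q : ℝ) < p
        · filter_upwards [h1 p q hp hq0 hq] with s hs _ _ _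
          exact hs
        · exact ae_of_all _ fun s _ _ h => absurd h hq
      · exact ae_of_all _ fun s _ h => absurd h hq0
    · exact ae_of_all _ fun s h => absurd h hp
  filter_upwards [h2] with s hs c hc hcs p hp hr κ hκ0 hκ
  have hcM : c ∈ multibrotSet d :=
    (Pool.Agent.H712R2.isCompact_multibrot hd).isClosed.frontier_subset hc
  obtain ⟨q, hq1, hq2⟩ := exists_rat_btwn hκ
  have hr' : RenC d c p := by
    rcases hr with rfl | hr
    · exact renC_one hd hcM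
    · exact hr
  have h3 := hs p q hp (hκ0.trans hq1) hq2 c hcs
  have h4 : FewAt d q c ∧ MomAt d q c := by
    by_contra hcon
    exact h3 ⟨hr', hcon⟩
  exact ⟨h4.1.mono hq1.le, mom_of hd h4.2.1 hκ0 hq1 h4.1⟩

/-- **Spreading to parameters with bounded moments.** -/
theorem spread_nice (hd : 2 ≤ d) {p₀ : ℂ} (h : ¬ CIK (multibrotSet d) p₀) :
    ∃ ε : ℝ, 0 < ε ∧ ∀ᵐ s : ℝ, 0 < s → s < ε →
      ∃ c ∈ frontier (multibrotSet d), dist c p₀ = s ∧ Nice d c ∧
        ¬ CIK (multibrotSet d) c := by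
  obtain ⟨ε, hε, hs⟩ := spread (Pool.Agent.H712R2.isCompact_multibrot hd)
    (Pool.Agent.H712R2.isConnected_multibrot hd).isPreconnected h
  refine ⟨ε, hε, ?_⟩
  filter_upwards [ae_nice hd p₀] with s h1 hs0 hsε
  obtain ⟨z, hz, hzs, hzc⟩ := hs s hs0 hsε
  have hzf : z ∈ frontier (multibrotSet d) :=
    ⟨subset_closure hz, fun hi => hzc (cik_interior hi)⟩
  exact ⟨z, hzf, hzs, h1 z hzf hzs, hzc⟩

/-- local connectivity at one point is decided at the parameters nearby with bounded moments -/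
theorem local_nice (hd : 2 ≤ d) {p : ℂ} {ε : ℝ} (hε : 0 < ε)
    (h : ∀ c ∈ frontier (multibrotSet d), c ≠ p → dist c p < ε →
      Nice d c → CIK (multibrotSet d) c) : CIK (multibrotSet d) p := by
  by_contra hcon
  obtain ⟨ε', hε', h1⟩ := spread_nice hd hcon
  have h3 : ∃ s : ℝ, s ∈ Ioo 0 (min ε ε') ∧ (0 < s → s < ε' →
      ∃ c ∈ frontier (multibrotSet d), dist c p = s ∧ Nice d c ∧
        ¬ CIK (multibrotSet d) c) := by
    by_contra h4
    push Not at h4
    have h5 : volume (Ioo 0 (min ε ε')) = 0 := by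
      apply measure_mono_null _ h1
      intro s hs hcon
      obtain ⟨h6, h7, h8⟩ := h4 s hs
      obtain ⟨c, hc1, hc2, hc3, hc4⟩ := hcon h6 h7
      exact hc4 (h8 c hc1 hc2 hc3)
    rw [Real.volume_Ioo, ENNReal.ofReal_eq_zero] at h5
    have := lt_min hε hε'
    linarith
  obtain ⟨s, hs, h4⟩ := h3
  obtain ⟨c, hc1, hcs, hc3, hc4⟩ := h4 hs.1 (hs.2.trans_le (min_le_right _ _))
  refine hc4 (h c hc1 ?_ ?_ hc3)
  · rintro rfl
    rw [dist_self] at hcs
    linarith [hs.1]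
  · rw [hcs]
    exact hs.2.trans_le (min_le_left _ _)

end Pool.Agent.R449.MB
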